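import Mathlib
import Pool.Agent.Lib.MP_c27bb7_lc.Words
import Pool.Agent.Lib.MP_c27bb7_lc.Patterns

/-!
Over a three-letter alphabet there are patterns with equal E-pattern languages whose variable
blocks do not all generate equal languages.
-/

set_option autoImplicit false

namespace Pool.Agent.Lib.MP_c27bb7_lc.Variants.Counterexample

open Pool.Agent.Lib.MP_c27bb7_lc

/-- The E-pattern language of a word over variables (`Sum.inl`) and terminals (`Sum.inr`):
all images under monoid morphisms fixing the terminals. -/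
def ELang {S : Type} (α : List (ℕ ⊕ S)) : Set (List S) :=
  {w | ∃ σ : List (ℕ ⊕ S) → List S, σ [] = [] ∧ (∀ x y, σ (x ++ y) = σ x ++ σ y) ∧
    (∀ s : S, σ [Sum.inr s] = [s]) ∧ σ α = w}

/-- The word `A 0, u 1, A 1, …, u m, A m`. -/
def assemble {S : Type} (m : ℕ) (u : ℕ → List S) (A : ℕ → List ℕ) : List (ℕ ⊕ S) :=
  (A 0).map Sum.inl ++
    (List.range m).flatMap fun i => (u (i + 1)).map Sum.inr ++ (A (i + 1)).map Sum.inl

/-- The data `m, u, A, B` is a decomposition witnessing that `α` and `β` are similar. -/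
def SimilarVia {S : Type} (α β : List (ℕ ⊕ S)) (m : ℕ) (u : ℕ → List S) (A B : ℕ → List ℕ) :
    Prop :=
  α = assemble m u A ∧ β = assemble m u B ∧ (∀ i, 1 ≤ i → i ≤ m → u i ≠ []) ∧
    ∀ i, 1 ≤ i → i < m → A i ≠ [] ∧ B i ≠ []

theorem mem_ELang {S : Type} (α : List (ℕ ⊕ S)) (w : List S) :
    w ∈ ELang α ↔ ∃ τ : ℕ → List S, α.flatMap (Sum.elim τ fun s => [s]) = w := by
  constructor
  · rintro ⟨σ, h0, h1, h2, rfl⟩
    refine ⟨fun n => σ [Sum.inl n], ?_⟩
    induction α with
    | nil => simp [h0]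
    | cons x α ih =>
      rw [List.flatMap_cons, ih, ← List.singleton_append (l := α), h1]
      cases x <;> simp [h2]
  · rintro ⟨τ, rfl⟩
    exact ⟨fun x => x.flatMap (Sum.elim τ fun s => [s]), rfl, fun x y => List.flatMap_append,
      fun s => by simp, rfl⟩

theorem mem_ELang_vars {S : Type} (p : List ℕ) (w : List S) :
    w ∈ ELang (p.map Sum.inl : List (ℕ ⊕ S)) ↔ Gen p w := by
  rw [mem_ELang]
  simp [Gen, List.flatMap_map]

theorem gen_shift {S : Type} (p : List ℕ) (w : List S) :
    Gen (p.map fun n => n + 2) w ↔ Gen p w := by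
  constructor
  · rintro ⟨σ, rfl⟩
    exact ⟨fun n => σ (n + 2), by rw [List.flatMap_map]⟩
  · rintro ⟨σ, rfl⟩
    exact ⟨fun n => σ (n - 2), by simp [List.flatMap_map]⟩

/-- the pattern `x a E b y` -/
def wrap {S : Type} (a b : S) (E : List ℕ) : List (ℕ ⊕ S) :=
  Sum.inl 0 :: Sum.inr a :: ((E.map fun n => n + 2).map Sum.inl ++ [Sum.inr b, Sum.inl 1])

theorem mem_wrap {S : Type} (a b : S) (E : List ℕ) (W : List S) :
    W ∈ ELang (wrap a b E) ↔ ∃ u w v, W = u ++ a :: w ++ b :: v ∧ Gen E w := by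
  rw [mem_ELang]
  constructor
  · rintro ⟨τ, rfl⟩
    exact ⟨τ 0, _, τ 1, by simp [wrap, List.flatMap_map], fun n => τ (n + 2), rfl⟩
  · rintro ⟨u, w, v, rfl, σ, rfl⟩
    refine ⟨fun n => if n = 0 then u else if n = 1 then v else σ (n - 2), ?_⟩
    simp [wrap, List.flatMap_map]

theorem wrap_lang {S : Type} [DecidableEq S] {a b c : S} (hall : ∀ x, x = a ∨ x = b ∨ x = c)
    (hab : a ≠ b) (hac : a ≠ c) (hbc : b ≠ c) {E : List ℕ} (hE : NoOnce E)
    (hc : ∀ w : List S, NoOnce w → Blocks 21 w → Gen E w) :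
    ELang (wrap a b E) = {W | ∃ u w v, W = u ++ a :: w ++ b :: v ∧ NoOnce w} := by
  ext W
  rw [mem_wrap]
  constructor
  · rintro ⟨u, w, v, rfl, σ, rfl⟩
    exact ⟨u, _, v, rfl, hE.flatMap σ⟩
  · rintro ⟨u, w, v, rfl, hw⟩
    obtain ⟨u', w', v', e, h1, h2⟩ := exists_short hall hab hac hbc _ w le_rfl hw
    refine ⟨u ++ u', w', v' ++ v, ?_, hc w' h1 h2⟩
    have : u ++ a :: w ++ b :: v = u ++ (a :: w ++ [b]) ++ v := by simp
    rw [this, e]; simp

/-- the first variable block after a terminal -/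
def second {S : Type} (α : List (ℕ ⊕ S)) : List (ℕ ⊕ S) :=
  ((α.dropWhile Sum.isLeft).dropWhile Sum.isRight).takeWhile Sum.isLeft

theorem drop_left {S : Type} (p : List ℕ) (r : List (ℕ ⊕ S)) :
    (p.map Sum.inl ++ r).dropWhile Sum.isLeft = r.dropWhile Sum.isLeft := by
  induction p with
  | nil => rfl
  | cons x p ih => exact ih

theorem drop_right {S : Type} (p : List S) (r : List (ℕ ⊕ S)) :
    (p.map Sum.inr ++ r).dropWhile Sum.isRight = r.dropWhile Sum.isRight := by
  induction p with
  | nil => rfl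
  | cons x p ih => exact ih

theorem take_left {S : Type} (p : List ℕ) (r : List (ℕ ⊕ S)) :
    (p.map Sum.inl ++ r).takeWhile Sum.isLeft = p.map Sum.inl ++ r.takeWhile Sum.isLeft := by
  induction p with
  | nil => rfl
  | cons x p ih => exact congrArg (List.cons (Sum.inl x)) ih

theorem second_eq {S : Type} (p q : List ℕ) (s : S) (u : List S) (r : List (ℕ ⊕ S))
    (h : r = [] ∨ (q ≠ [] ∧ ∃ t r', r = Sum.inr t :: r')) :
    second (p.map Sum.inl ++ ((s :: u).map Sum.inr ++ q.map Sum.inl ++ r)) = q.map Sum.inl := by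
  have e1 : ((s :: u).map Sum.inr ++ q.map Sum.inl ++ r : List (ℕ ⊕ S)).dropWhile Sum.isLeft =
      (s :: u).map Sum.inr ++ (q.map Sum.inl ++ r) := by simp
  rw [second, drop_left, e1, drop_right]
  rcases h with rfl | ⟨hq, t, r', rfl⟩
  · cases q with
    | nil => rfl
    | cons x q => simp
  · cases q with
    | nil => exact absurd rfl hq
    | cons x q =>
      exact (take_left (S := S) (x :: q) (Sum.inr t :: r')).trans (List.append_nil _)

theorem second_wrap {S : Type} (a b : S) {E : List ℕ} (hE : E ≠ []) :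
    second (wrap a b E) = (E.map fun n => n + 2).map Sum.inl := by
  have := second_eq [0] (E.map fun n => n + 2) a [] [Sum.inr b, Sum.inl 1]
    (Or.inr ⟨by simpa using hE, b, _, rfl⟩)
  simpa [wrap] using this

theorem second_assemble {S : Type} {m : ℕ} {u : ℕ → List S} {A : ℕ → List ℕ} (hm : 1 ≤ m)
    (hu : ∀ i, 1 ≤ i → i ≤ m → u i ≠ []) (hA : ∀ i, 1 ≤ i → i < m → A i ≠ []) :
    second (assemble m u A) = (A 1).map Sum.inl := by
  obtain ⟨m, rfl⟩ : ∃ k, m = k + 1 := ⟨m - 1, by omega⟩
  obtain ⟨s, t, hst⟩ := List.exists_cons_of_ne_nil (hu 1 le_rfl hm)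
  rw [assemble, List.range_succ_eq_map, List.flatMap_cons, zero_add, hst]
  refine second_eq _ _ _ _ _ ?_
  cases m with
  | zero => exact Or.inl rfl
  | succ m =>
    obtain ⟨s', t', hst'⟩ := List.exists_cons_of_ne_nil (hu 2 (by omega) (by omega))
    refine Or.inr ⟨hA 1 le_rfl (by omega), s', ?_⟩
    rw [List.range_succ_eq_map, List.map_cons, List.flatMap_cons, hst']
    exact ⟨_, rfl⟩

/-- Over every three-letter alphabet there are similar patterns with equal E-pattern languages
such that in every decomposition witnessing similarity some pair of variable blocks has different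
E-pattern languages. -/
theorem result (S : Type) [Fintype S] (hS : Fintype.card S = 3) :
    ∃ α β : List (ℕ ⊕ S), α ≠ [] ∧ β ≠ [] ∧ ELang α = ELang β ∧
      (∃ (m : ℕ) (u : ℕ → List S) (A B : ℕ → List ℕ), SimilarVia α β m u A B) ∧
      ∀ (m : ℕ) (u : ℕ → List S) (A B : ℕ → List ℕ), SimilarVia α β m u A B →
        ∃ i, i ≤ m ∧ ELang ((A i).map Sum.inl : List (ℕ ⊕ S)) ≠ ELang ((B i).map Sum.inl) := by
  classical
  let e : S ≃ Fin 3 := Fintype.equivFinOfCardEq hS
  let a := e.symm 0
  let b := e.symm 1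
  let c := e.symm 2
  have hab : a ≠ b := fun h => absurd (e.symm.injective h) (by decide)
  have hac : a ≠ c := fun h => absurd (e.symm.injective h) (by decide)
  have hbc : b ≠ c := fun h => absurd (e.symm.injective h) (by decide)
  have hall : ∀ x, x = a ∨ x = b ∨ x = c := by
    intro x
    obtain ⟨i, rfl⟩ := e.symm.surjective x
    fin_cases i
    · exact Or.inl rfl
    · exact Or.inr (Or.inl rfl)
    · exact Or.inr (Or.inr rfl)
  let enc : S → ℕ := fun s => (e s).val
  let dec : ℕ → S := fun n => e.symm ⟨n % 3, Nat.mod_lt _ (by norm_num)⟩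
  have hdec : ∀ s, dec (enc s) = s := fun s => by
    simp only [dec, enc, Nat.mod_eq_of_lt (e s).2, Fin.eta, Equiv.symm_apply_apply]
  obtain ⟨D, hD, hcov⟩ := exists_cover enc dec hdec (fun s => (e s).2) 21
  obtain ⟨w0, hw0, hmiss⟩ := exists_missed a hab.symm hac.symm hall hD
  let D' := merge D (w0.map enc)
  have hD' : NoOnce D' := hD.merge (hw0.map enc)
  have hcov' : ∀ w : List S, NoOnce w → Blocks 21 w → Gen D' w := fun w h1 h2 =>
    (hcov w h1 h2).merge_left _
  have hw0' : Gen D' w0 := Gen.merge_right _ ⟨fun n => [dec n], by simp [List.flatMap_map, hdec]⟩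
  have hcc : Gen D [c, c] := by
    refine hcov _ (fun x => ?_) ((Blocks.of_all c (by simp)).mono (by norm_num))
    by_cases hx : c = x <;> simp [hx]
  have hne : D ≠ [] := by
    rintro rfl
    obtain ⟨σ, hσ⟩ := hcc
    simp at hσ
  have hne' : D' ≠ [] := by simp [D', merge, hne]
  refine ⟨wrap a b D, wrap a b D', by simp [wrap], by simp [wrap], ?_, ?_, ?_⟩
  · rw [wrap_lang hall hab hac hbc hD hcov, wrap_lang hall hab hac hbc hD' hcov']
  · refine ⟨2, fun i => if i = 1 then [a] else [b],
      fun i => if i = 0 then [0] else if i = 1 then D.map fun n => n + 2 else [1],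
      fun i => if i = 0 then [0] else if i = 1 then D'.map fun n => n + 2 else [1],
      by simp [wrap, assemble, List.range_succ], by simp [wrap, assemble, List.range_succ],
      fun i _ _ => by dsimp only; split_ifs <;> simp, fun i h1 h2 => ?_⟩
    obtain rfl : i = 1 := by omega
    simp [hne, hne']
  · rintro m u A B ⟨h1, h2, h3, h4⟩
    have hm : 1 ≤ m := by
      by_contra hm
      obtain rfl : m = 0 := by omega
      have : Sum.inr a ∈ wrap a b D := by simp [wrap]
      rw [h1] at this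
      simp [assemble] at this
    have k1 := second_assemble hm h3 fun i x y => (h4 i x y).1
    have k2 := second_assemble hm h3 fun i x y => (h4 i x y).2
    rw [← h1, second_wrap a b hne] at k1
    rw [← h2, second_wrap a b hne'] at k2
    refine ⟨1, hm, fun h => hmiss ?_⟩
    rw [← gen_shift, ← mem_ELang_vars, k1, h, ← k2, mem_ELang_vars, gen_shift]
    exact hw0'

end Pool.Agent.Lib.MP_c27bb7_lc.Variants.Counterexample
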